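import Pool.Agent.Work.MP_065141_co.Main1

set_option autoImplicit false
open scoped Classical

namespace Pool.Agent.Results.MP_065141_co.OneExtreme

open Pool.Gauss Finset

/-- Classification of the finite Gaussian posets with a greatest or a least element: such a poset
is isomorphic to a product of two chains, to `J(2 × r)`, to the ordinal sum of an `r`-chain, the
Boolean square and another `r`-chain, to `J(J(2 × 3))` or to `J(J(J(2 × 3)))`. -/
theorem result :
    ∀ (α : Type) [Fintype α] [PartialOrder α],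
      ((∃ t : α, ∀ x : α, x ≤ t) ∨ (∃ t : α, ∀ x : α, t ≤ x)) →
      (∃ h : Fin (Fintype.card α) → ℕ, (∀ i, 0 < h i) ∧
        ∀ m : ℕ,
          (∑ σ ∈ (Finset.univ.filter (fun σ : α → Fin (m + 1) => Monotone σ)),
              (Polynomial.X : Polynomial ℤ) ^ (∑ x, (σ x).val)) *
            ∏ i, (1 - (Polynomial.X : Polynomial ℤ) ^ (h i)) =
          ∏ i, (1 - (Polynomial.X : Polynomial ℤ) ^ (m + h i))) →
      (∃ r s : ℕ, Nonempty (α ≃o (Fin r × Fin s))) ∨
      (∃ r : ℕ, Nonempty (α ≃o LowerSet (Fin 2 × Fin r))) ∨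
      (∃ r : ℕ, Nonempty (α ≃o (Fin r ⊕ₗ ((Fin 2 × Fin 2) ⊕ₗ Fin r)))) ∨
      Nonempty (α ≃o LowerSet (LowerSet (Fin 2 × Fin 3))) ∨
      Nonempty (α ≃o LowerSet (LowerSet (LowerSet (Fin 2 × Fin 3)))) := by
  intro α _ _ ht hG
  have hconn : Conn α := by
    intro a b
    rcases ht with ⟨t, ht⟩ | ⟨t, ht⟩
    · have h1 : Relation.ReflTransGen (fun x y : α => x ≤ y ∨ y ≤ x) a t :=
        Relation.ReflTransGen.single (Or.inl (ht a))
      exact h1.tail (Or.inr (ht b))
    · have h1 : Relation.ReflTransGen (fun x y : α => x ≤ y ∨ y ≤ x) a t :=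
        Relation.ReflTransGen.single (Or.inr (ht a))
      exact h1.tail (Or.inl (ht b))
  obtain ⟨h, hG'⟩ := hG
  have hG'' : IsGaussianWith α h := hG'
  refine classify_one (α := α) ⟨⟨h, hG''⟩, hconn, ?_⟩
  rcases ht with ⟨t, ht⟩ | ⟨t, ht⟩
  · rw [card_eq_one]
    refine ⟨t, ?_⟩
    ext x
    rw [mem_lev, mem_singleton, corank_eq_zero]
    constructor
    · intro h1
      by_contra hne
      exact h1 t (lt_of_le_of_ne (ht x) hne)
    · rintro rfl
      exact fun y hy => absurd (ht y) (not_le_of_gt hy)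
  · have h1 := card_h_eq (dual_isGaussian hG'') 1
    have h2 := card_h_eq hG'' 1
    have h3 : nn αᵒᵈ 1 = nn α 1 := by
      unfold nn
      rw [← h2]
      exact h1.symm
    rw [nn_succ, nn_succ] at h3
    rw [← h3, card_eq_one]
    refine ⟨OrderDual.toDual t, ?_⟩
    ext x
    rw [mem_lev, mem_singleton, corank_eq_zero]
    constructor
    · intro h4
      by_contra hne
      exact h4 (OrderDual.toDual t) (lt_of_le_of_ne (ht (OrderDual.ofDual x)) hne)
    · rintro rfl
      exact fun y hy => absurd (ht (OrderDual.ofDual y)) (not_le_of_gt hy)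

end Pool.Agent.Results.MP_065141_co.OneExtreme
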