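import Pool.Agent.Gauss35.Structure

set_option autoImplicit false
open scoped Classical

namespace Pool.Agent.Results.MP_065141_co.Structure

open Pool.Gauss Finset

/-- Structure of connected Gaussian posets: there is a rank function `ρ` (equal to `1` on the
maximal elements, to some `l` on the minimal elements, increasing by one going down along each
cover), the numbers `h_i` are the values of `ρ`, every element covers at most two elements and is
covered by at most two elements, and for every nonempty level `v` the number of elements of level
`v - 1` covering two elements, and the number of elements of level `v + 1` covered by two elements,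
both equal the size of level `v` minus the size of level `1`. -/
theorem result :
    ∀ (α : Type) [Fintype α] [PartialOrder α],
      Nonempty α →
      (∀ a b : α, Relation.ReflTransGen (fun x y : α => x ≤ y ∨ y ≤ x) a b) →
      ∀ h : Fin (Fintype.card α) → ℕ, ((∀ i, 0 < h i) ∧
        ∀ m : ℕ,
          (∑ σ ∈ (Finset.univ.filter (fun σ : α → Fin (m + 1) => Monotone σ)),
              (Polynomial.X : Polynomial ℤ) ^ (∑ x, (σ x).val)) *
            ∏ i, (1 - (Polynomial.X : Polynomial ℤ) ^ (h i)) =
          ∏ i, (1 - (Polynomial.X : Polynomial ℤ) ^ (m + h i))) →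
      ∃ (ρ : α → ℕ) (l : ℕ),
        (∀ x : α, (∀ y : α, ¬ x < y) → ρ x = 1) ∧
        (∀ x : α, (∀ y : α, ¬ y < x) → ρ x = l) ∧
        (∀ x y : α, x ⋖ y → ρ x = ρ y + 1) ∧
        (∀ v : ℕ, (Finset.univ.filter fun i => h i = v).card =
          (Finset.univ.filter fun x : α => ρ x = v).card) ∧
        (∀ x : α, (Finset.univ.filter fun y => y ⋖ x).card ≤ 2) ∧
        (∀ x : α, (Finset.univ.filter fun y => x ⋖ y).card ≤ 2) ∧
        (∀ v : ℕ, (∃ x, ρ x = v) →
          (Finset.univ.filter fun z => ρ z + 1 = v ∧
              (Finset.univ.filter fun y => y ⋖ z).card = 2).card +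
            (Finset.univ.filter fun x => ρ x = 1).card =
          (Finset.univ.filter fun x : α => ρ x = v).card) ∧
        (∀ v : ℕ, (∃ x, ρ x = v) →
          (Finset.univ.filter fun z => ρ z = v + 1 ∧
              (Finset.univ.filter fun y => z ⋖ y).card = 2).card +
            (Finset.univ.filter fun x => ρ x = 1).card =
          (Finset.univ.filter fun x => ρ x = v).card) := by
  intro α _ _ hne hc h hG
  have hG' : IsGaussianWith α h := hG
  have hc' : Conn α := hc
  obtain ⟨x0⟩ := hne
  -- the constant rank + corank
  have hlev : ∀ v : ℕ, (Finset.univ.filter fun x : α => corank x + 1 = v + 1) = lev α v := by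
    intro v
    ext x
    rw [mem_filter, mem_lev]
    simp
  have hlev1 : (Finset.univ.filter fun x : α => corank x + 1 = 1) = lev α 0 := hlev 0
  have hdn : ∀ z : α, (Finset.univ.filter fun y => y ⋖ z) = dn (corank z + 1) z := by
    intro z
    ext y
    rw [mem_filter, mem_dn]
    constructor
    · rintro ⟨_, hy⟩
      exact ⟨corank_covBy hG' hy, hy.lt⟩
    · rintro ⟨h1, h2⟩
      refine ⟨mem_univ _, h2, ?_⟩
      intro c h3 h4
      have h5 := corank_lt h3
      have h6 := corank_lt h4
      omega
  have hup : ∀ z y : α, z ⋖ y → (Finset.univ.filter fun y => z ⋖ y) = up (corank y) z := by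
    intro z y hzy
    have h0 := corank_covBy hG' hzy
    ext w
    rw [mem_filter, mem_up]
    constructor
    · rintro ⟨_, hy⟩
      have := corank_covBy hG' hy
      exact ⟨by omega, hy.lt⟩
    · rintro ⟨h1, h2⟩
      refine ⟨mem_univ _, h2, ?_⟩
      intro c h3 h4
      have h5 := corank_lt h3
      have h6 := corank_lt h4
      omega
  refine ⟨fun x => corank x + 1, rank x0 + corank x0 + 1, ?_, ?_, ?_, ?_, ?_, ?_, ?_, ?_⟩
  · intro x hx
    have : corank x = 0 := corank_eq_zero.2 hx
    change corank x + 1 = 1
    omega
  · intro x hx
    have h1 : rank x = 0 := by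
      unfold rank
      rw [corank_eq_zero]
      intro y hy
      exact hx (OrderDual.ofDual y) hy
    have h2 := rank_add_corank hG' hc' x x0
    change corank x + 1 = _
    omega
  · intro x y hxy
    have := corank_covBy hG' hxy
    change corank x + 1 = corank y + 1 + 1
    omega
  · intro v
    exact card_h_eq hG' v
  · intro x
    exact (covers_le_two hG' hc' x).1
  · intro x
    exact (covers_le_two hG' hc' x).2
  · rintro v ⟨x, hx⟩
    change corank x + 1 = v at hx
    subst hx
    have h1 := (branching hG' hc' (mem_lev.2 (rfl : corank x = corank x))).1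
    change (Finset.univ.filter fun z : α => corank z + 1 + 1 = corank x + 1 ∧
              (Finset.univ.filter fun y => y ⋖ z).card = 2).card +
            (Finset.univ.filter fun x : α => corank x + 1 = 1).card =
          (Finset.univ.filter fun y : α => corank y + 1 = corank x + 1).card
    rw [hlev1, hlev, ← h1]
    congr 2
    ext z
    rw [mem_filter, mem_filter, mem_lev']
    constructor
    · rintro ⟨_, h2, h3⟩
      have h4 : corank z + 1 = corank x := by omega
      refine ⟨h4, ?_⟩
      rw [hdn, h4] at h3
      exact h3
    · rintro ⟨h2, h3⟩
      refine ⟨mem_univ _, by omega, ?_⟩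
      rw [hdn, h2]
      exact h3
  · rintro v ⟨x, hx⟩
    change corank x + 1 = v at hx
    subst hx
    have h1 := (branching hG' hc' (mem_lev.2 (rfl : corank x = corank x))).2
    change (Finset.univ.filter fun z : α => corank z + 1 = corank x + 1 + 1 ∧
              (Finset.univ.filter fun y => z ⋖ y).card = 2).card +
            (Finset.univ.filter fun x : α => corank x + 1 = 1).card =
          (Finset.univ.filter fun y : α => corank y + 1 = corank x + 1).card
    rw [hlev1, hlev, ← h1]
    congr 2
    ext z
    rw [mem_filter, mem_filter, mem_lev]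
    have hz : ∀ hz : corank z = corank x + 1,
        (Finset.univ.filter fun y => z ⋖ y) = up (corank x) z := by
      intro hz
      obtain ⟨y, hy, hy'⟩ := exists_gt_corank (x := z) (n := corank x) (by omega)
      have h5 : z ⋖ y := by
        refine ⟨hy, ?_⟩
        intro c h3 h4
        have h5 := corank_lt h3
        have h6 := corank_lt h4
        omega
      rw [hup z y h5, hy']
    constructor
    · rintro ⟨_, h2, h3⟩
      have h4 : corank z = corank x + 1 := by omega
      refine ⟨h4, ?_⟩
      rw [hz h4] at h3
      exact h3
    · rintro ⟨h2, h3⟩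
      refine ⟨mem_univ _, by omega, ?_⟩
      rw [hz h2]
      exact h3

end Pool.Agent.Results.MP_065141_co.Structure
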